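import Mathlib
import Pool.Agent.Q9.BE.Dh

/-!
# The density hypothesis in terms of a series over the prime powers on the line `Re s = 1`

For real `τ`, `h > 0` and `k ≥ 1` let

`B_k(τ, h) = ∑_{q = p^n} 1 / (n q^(1 + iτ)) · J_k(h log q) / (h log q)`,

an absolutely convergent series over the prime powers.  At every height `τ ≥ 2` the rate of decay of
`B_k(τ, h)` for `k → ∞` is exactly the size of the largest ellipse with the foci `1 + i (τ ± h)` which is
free of zeros of `ζ`: for `0 < h ≤ 1` and `R > 1` with `h (R - 1/R) ≤ 1` there is no zero in the open ellipse with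
the sum `h R` of the semi-axes, whose leftmost point is `1 - h (R - 1/R) / 2 + iτ ≥ 1/2 + iτ`, if and only if
`B_k(τ, h) = O(r^(-k))` for all `r < R`.

Hence a zero density theorem with the exponent `A(σ)` is the same as the bound `O(T^(A(σ) + ε))` for the measure of
the set of the heights `τ` in `[2, T]` without this decay, where `h (R - 1/R) = 2 (1 - σ)`; in particular
the density hypothesis is this statement with `A(σ) = 2 (1 - σ)`.

Proof.  The boundary function `log ζ(1 + i (τ + h u))`, `|u| ≤ 1`, exists almost everywhere and is integrable; its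
coefficients for the Chebyshev polynomials of the second kind are the `B_k(τ, h)` up to a factor `2k`.  They
decay like `r^(-k)`, `r < R`, if and only if the function is analytic in the ellipse.  A zero makes an interval of
heights of length `≥ c` bad for each smaller `σ`, and each bad height has a zero near by; zeros which come in
clusters of less than `η log T` satisfy the density hypothesis (the starting file
`MP_4467b5_nt/IsolatedZeros`; the reduction to clusters is `MP_4467b5_nt/LargeValues`).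
-/

set_option autoImplicit false

open MeasureTheory

namespace Pool.Agent.Results.MP_4467b5_nt.BesselHeights

/-- The number of the zeros `β + iγ` of `ζ` with `β ≥ σ` and `x < γ ≤ y`, counted with
multiplicity. (There are finitely many, see `finite`.) -/
noncomputable def N (σ x y : ℝ) : ℕ :=
  ∑ᶠ s ∈ {s : ℂ | riemannZeta s = 0 ∧ σ ≤ s.re ∧ x < s.im ∧ s.im ≤ y}, analyticOrderNatAt riemannZeta s

theorem finite (σ x y : ℝ) : {s : ℂ | riemannZeta s = 0 ∧ σ ≤ s.re ∧ x < s.im ∧ s.im ≤ y}.Finite :=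
  Pool.Agent.Q30.DH.ZN_fin σ x y

/-- a zero density theorem with the exponent `A(σ)` -/
def ZeroDensity (A : ℝ → ℝ) : Prop :=
  ∀ ε : ℝ, 0 < ε → ∃ C : ℝ, 0 < C ∧ ∃ T₀ : ℝ, ∀ T : ℝ, T₀ ≤ T → ∀ σ : ℝ, 1 / 2 ≤ σ → σ ≤ 1 →
    (N σ 0 T : ℝ) ≤ C * T ^ (A σ + ε)

/-- the density hypothesis -/
def DensityHypothesis : Prop :=
  ∀ ε : ℝ, 0 < ε → ∃ C : ℝ, 0 < C ∧ ∃ T₀ : ℝ, ∀ T : ℝ, T₀ ≤ T → ∀ σ : ℝ, 1 / 2 ≤ σ → σ ≤ 1 →
    (N σ 0 T : ℝ) ≤ C * T ^ (2 * (1 - σ) + ε)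

/-- The Bessel function `J_k(y) = (i^k / π) ∫_0^π e^{-iy cos θ} cos(kθ) dθ` of order `k`. -/
noncomputable def bessel (k : ℕ) (y : ℝ) : ℂ :=
  Complex.I ^ k / Real.pi * ∫ θ in (0 : ℝ)..Real.pi,
    Complex.exp (-(Complex.I * y * Real.cos θ)) * Complex.cos (k * θ)

/-- The term of the Bessel series at the prime power `q = p^n`, `n = j + 1`: the number `1/n`, times
`q^(-1-iτ)`, times `J_k(h log q) / (h log q)`. -/
noncomputable def besselTerm (τ h : ℝ) (k : ℕ) (x : Nat.Primes × ℕ) : ℂ :=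
  1 / ((x.2 + 1 : ℕ) : ℂ) * (((x.1 : ℕ) : ℂ) ^ (-(1 + τ * Complex.I))) ^ (x.2 + 1) *
    (bessel k (h * Real.log (((x.1 : ℕ) ^ (x.2 + 1) : ℕ) : ℝ)) /
      ((h * Real.log (((x.1 : ℕ) ^ (x.2 + 1) : ℕ) : ℝ) : ℝ) : ℂ))

/-- The Bessel series `B_k(τ, h)`, the sum of the terms over all prime powers. -/
noncomputable def besselSeries (τ h : ℝ) (k : ℕ) : ℂ :=
  ∑' x : Nat.Primes × ℕ, besselTerm τ h k x

/-- `B_k(τ, h) = O(r^(-k))` for `k → ∞`, for all `r` between `1` and `R`. -/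
def Decays (τ h R : ℝ) : Prop :=
  ∀ r : ℝ, 1 < r → r < R → ∃ C : ℝ, ∀ k : ℕ, 1 ≤ k → ‖besselSeries τ h k‖ ≤ C / r ^ k

/-- The open ellipse with the foci `1 + i (τ ± h)` and the sum `h R` of the semi-axes. -/
def Ellipse (τ h R : ℝ) : Set ℂ :=
  {s : ℂ | ‖s - (1 + (τ + h) * Complex.I)‖ + ‖s - (1 + (τ - h) * Complex.I)‖ < h * (R + 1 / R)}

/-- Few heights without decay, with the exponent `A(σ)`: the heights `τ` in `[2, T]` at which it is not true
that `B_k(τ, h) = O(r^(-k))` for all `r < R`, `h (R - 1/R) = 2 (1 - σ)`, have the Lebesgue (outer) measure at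
most `C T^(A(σ)+ε)`, uniformly in `σ`. -/
def FewBadHeights (h : ℝ) (A : ℝ → ℝ) : Prop :=
  ∀ ε : ℝ, 0 < ε → ∃ C : ℝ, 0 < C ∧ ∃ T₀ : ℝ, ∀ T : ℝ, T₀ ≤ T → ∀ σ : ℝ, 1 / 2 ≤ σ → σ ≤ 1 →
    ∀ R : ℝ, 1 < R → h * (R - 1 / R) = 2 * (1 - σ) →
      volume {τ : ℝ | 2 ≤ τ ∧ τ ≤ T ∧ ¬ Decays τ h R} ≤ ENNReal.ofReal (C * T ^ (A σ + ε))

lemma mem_Ellipse {τ h R : ℝ} (hh : 0 < h) (s : ℂ) :
    s ∈ Ellipse τ h R ↔ s ∈ Pool.Agent.Q9.EL.Es τ h R := by
  rw [Pool.Agent.Q9.BE.Es_add τ h R hh]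
  have e1 : s + 1 / 2 - (3 / 2 + (τ + h) * Complex.I) = s - (1 + (τ + h) * Complex.I) := by ring
  have e2 : s + 1 / 2 - (3 / 2 + (τ - h) * Complex.I) = s - (1 + (τ - h) * Complex.I) := by ring
  unfold Ellipse Pool.Agent.Q9.BE.Ell
  rw [Set.mem_ofPred_eq, Set.mem_ofPred_eq, e1, e2]

/-- **Theorem.** Let `0 < h ≤ 1`.

1. The series `B_k(τ, h)` converge absolutely.
2. For `τ ≥ 2` and `R > 1` with `h (R - 1/R) ≤ 1`, `ζ` has no zero in the open ellipse with the foci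
   `1 + i (τ ± h)` and the sum `h R` of the semi-axes if and only if `B_k(τ, h) = O(r^(-k))` for all `r < R`.
3. The density hypothesis holds if and only if few heights are without decay with the exponent
   `2 (1 - σ)`.
4. The same with any continuous nonincreasing exponent `A(σ) ≥ 2 (1 - σ)` on `[1/2, 1]`. -/
theorem result (h : ℝ) (hh : 0 < h) (hh1 : h ≤ 1) :
    (∀ (τ : ℝ) (k : ℕ), Summable fun x => ‖besselTerm τ h k x‖) ∧
    (∀ τ R : ℝ, 2 ≤ τ → 1 < R → h * (R - 1 / R) ≤ 1 →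
      ((∀ s ∈ Ellipse τ h R, riemannZeta s ≠ 0) ↔ Decays τ h R)) ∧
    (DensityHypothesis ↔ FewBadHeights h fun σ => 2 * (1 - σ)) ∧
    ∀ A : ℝ → ℝ, ContinuousOn A (Set.Icc (1 / 2) 1) → AntitoneOn A (Set.Icc (1 / 2) 1) →
      (∀ σ : ℝ, 1 / 2 ≤ σ → σ ≤ 1 → 2 * (1 - σ) ≤ A σ) →
      (ZeroDensity A ↔ FewBadHeights h A) := by
  have h4 : ∀ A : ℝ → ℝ, ContinuousOn A (Set.Icc (1 / 2) 1) → AntitoneOn A (Set.Icc (1 / 2) 1) →
      (∀ σ : ℝ, 1 / 2 ≤ σ → σ ≤ 1 → 2 * (1 - σ) ≤ A σ) →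
      (ZeroDensity A ↔ FewBadHeights h A) := by
    intro A h1 h2 h3
    exact Pool.Agent.Q9.BE.zd_iff_bd (A := A) ⟨h1, h2, h3⟩ hh hh1
  refine ⟨?_, ?_, ?_, h4⟩
  · intro τ k
    exact Pool.Agent.Q9.EL.summable_bt Pool.Agent.Q9.BE.norm_bz τ hh k
  · intro τ R hτ hR hhR
    have h5 := Pool.Agent.Q9.BE.zeta_iff hh hR (Pool.Agent.Q9.BE.one_notMem hh hh1 hR hhR hτ)
    simp_rw [mem_Ellipse hh]
    exact h5
  · exact h4 (fun σ => 2 * (1 - σ)) (by fun_prop) (fun a _ b _ hab => by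
      simp only
      linarith) (fun _ _ _ => le_rfl)

end Pool.Agent.Results.MP_4467b5_nt.BesselHeights
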