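import Pool.Agent.Q44.Appr
import Pool.Agent.Q34.DN.Main

/-!
# The density hypothesis in ALL short intervals at the heights given by continued fractions

`N σ x y` is the number of the zeros of zeta with real part at least `σ` and ordinate in `(x, y]`. We call the integer
`m` good if `N σ t (t + H) ≤ m ^ ε H ^ (2(1-σ))` for ALL real `t ∈ [m, m + 1)`, ALL `1 ≤ H ≤ t ^ (2/3)` and ALL
`1/2 ≤ σ ≤ 1`, together with `N σ t (t + H) ≤ m ^ ε H t ^ (-(4/3)(σ - 1/2))` for all `t ^ (2/3) ≤ H ≤ t` and all these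
`σ`. Unconditionally, for `0 < ε ≤ 1` and all irrational `α` outside a set of Hausdorff dimension at most `1 - ε / 4`,
in particular for almost every real number, and all integers `(u, v) ≠ (0, 0)`, the integers `m = |u p + v q|` are good
for all but finitely many convergents `p / q` of the continued fraction of `α`. The same for the approximations of
other qualities, for the points of `ℝ ^ d`, and for the values of polynomials at the denominator and the numerators.
-/

set_option autoImplicit false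

open MeasureTheory

namespace Pool.Agent.Results.MP_4467b5_nt.GoodApproximations

open Pool.Agent.Q44.CF (AtApproximations at_of)

/-- the number of the zeros `β + iγ` of zeta with `β ≥ σ` and `x < γ ≤ y`, counted with multiplicity -/
noncomputable def N (σ x y : ℝ) : ℕ :=
  ∑ᶠ s ∈ {s : ℂ | riemannZeta s = 0 ∧ σ ≤ s.re ∧ x < s.im ∧ s.im ≤ y}, analyticOrderNatAt riemannZeta s

/-- the sets of zeros that are counted are finite -/
theorem finite {σ x y : ℝ} (hx : 0 ≤ x) :
    {s : ℂ | riemannZeta s = 0 ∧ σ ≤ s.re ∧ x < s.im ∧ s.im ≤ y}.Finite := Pool.Agent.Q34.DN.fin hx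

/-- the density hypothesis, up to the factor `b`, in the intervals `(t, t + H]`, `1 ≤ H ≤ t ^ (2/3)`, for all `σ`, and
the density theorem of slope `4/3` in those with `t ^ (2/3) ≤ H ≤ t` -/
def DensityAt (b t : ℝ) : Prop := ∀ H σ : ℝ, 1 ≤ H → 1 / 2 ≤ σ → σ ≤ 1 →
  (H ≤ t ^ (2 / 3 : ℝ) → (N σ t (t + H) : ℝ) ≤ b * H ^ (2 * (1 - σ))) ∧
  (t ^ (2 / 3 : ℝ) ≤ H → H ≤ t → (N σ t (t + H) : ℝ) ≤ b * (H * t ^ (-(4 / 3 * (σ - 1 / 2)))))

/-- the integer `m` is good -/
def Good (ε : ℝ) (m : ℕ) : Prop := ∀ t : ℝ, (m : ℝ) ≤ t → t < m + 1 → DensityAt ((m : ℝ) ^ ε) t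

lemma good_of {ε : ℝ} {m : ℕ} (h : Pool.Agent.Q34.DN.Good ε m) : Good ε m := by
  intro t ht1 ht2 H σ hH hσ1 hσ2
  have hH0 : (0 : ℝ) < H := by linarith
  constructor
  · intro h1
    have hHt : H ≤ t := by
      rcases le_total t 1 with h2 | h2
      · -- `t ≤ 1` forces `H ≤ 1`
        have ht0 : 0 ≤ t := (Nat.cast_nonneg m).trans ht1
        have h3 : t ^ (2 / 3 : ℝ) ≤ 1 := Real.rpow_le_one ht0 h2 (by norm_num)
        have h4 : H = 1 := le_antisymm (h1.trans h3) hH
        by_contra hcon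
        push Not at hcon
        have h5 : t ^ (2 / 3 : ℝ) < 1 := Real.rpow_lt_one ht0 (by linarith) (by norm_num)
        linarith
      · refine h1.trans ?_
        calc t ^ (2 / 3 : ℝ) ≤ t ^ (1 : ℝ) := Real.rpow_le_rpow_of_exponent_le h2 (by norm_num)
          _ = t := Real.rpow_one t
    have ht1' : 1 ≤ t := hH.trans hHt
    refine (h t ht1 ht2 H hH hHt σ hσ1 hσ2).trans ?_
    apply mul_le_mul_of_nonneg_left _ (by positivity)
    have h2 : H ^ 2 ≤ t ^ (4 / 3 : ℝ) := by
      calc H ^ 2 ≤ (t ^ (2 / 3 : ℝ)) ^ 2 := pow_le_pow_left₀ hH0.le h1 2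
        _ = t ^ (4 / 3 : ℝ) := by
            rw [← Real.rpow_natCast, ← Real.rpow_mul (by linarith)]
            norm_num
    rw [min_eq_left h2, ← Real.rpow_natCast, ← Real.rpow_mul hH0.le]
    conv_lhs => rw [← Real.rpow_one H, ← Real.rpow_mul hH0.le, ← Real.rpow_add hH0]
    apply le_of_eq
    congr 1
    push_cast
    ring
  · intro h1 hHt
    have ht1' : 1 ≤ t := hH.trans hHt
    refine (h t ht1 ht2 H hH hHt σ hσ1 hσ2).trans ?_
    apply mul_le_mul_of_nonneg_left _ (by positivity)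
    have h2 : t ^ (4 / 3 : ℝ) ≤ H ^ 2 := by
      calc t ^ (4 / 3 : ℝ) = (t ^ (2 / 3 : ℝ)) ^ 2 := by
            rw [← Real.rpow_natCast, ← Real.rpow_mul (by linarith)]
            norm_num
        _ ≤ H ^ 2 := pow_le_pow_left₀ (by positivity) h1 2
    rw [min_eq_right h2, ← Real.rpow_mul (by linarith)]
    apply le_of_eq
    congr 2
    ring

/-- **Theorem.** For `0 < ε ≤ 1` and for all integers `m` given by good rational approximations of real numbers and
real points, in the sense of `AtApproximations (1 - ε / 2)`, the density hypothesis holds up to the factor `m ^ ε` in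
ALL intervals `(t, t + H]`, `m ≤ t < m + 1`, `1 ≤ H ≤ t ^ (2/3)`, for all `1/2 ≤ σ ≤ 1`, and the density theorem of
slope `4/3` in those with `t ^ (2/3) ≤ H ≤ t`. -/
theorem result : ∀ ε : ℝ, 0 < ε → ε ≤ 1 → AtApproximations (1 - ε / 2) (Good ε) := by
  classical
  intro ε hε hε1
  obtain ⟨C, hC⟩ := Pool.Agent.Q34.DN.count hε hε1
  refine at_of (B := fun m => ¬ Good ε m) (by linarith) ?_ (fun _ h => h)
  intro t ht
  refine ⟨|C|, fun Y hY => ?_⟩
  have hY1 : (1 : ℝ) ≤ Y := by exact_mod_cast hY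
  refine le_trans (Nat.cast_le.2 (Pool.Agent.Q21.DW.card_mono (t := (Finset.Ioc 0 Y)) ?_)) ((hC Y).trans ?_)
  · intro m hm h5
    rw [Finset.mem_Icc] at hm
    exact ⟨Finset.mem_Ioc.2 ⟨by omega, hm.2⟩, fun hg => h5 (good_of hg)⟩
  · calc C * (Y : ℝ) ^ (1 - ε / 2) ≤ |C| * (Y : ℝ) ^ (1 - ε / 2) :=
          mul_le_mul_of_nonneg_right (le_abs_self C) (by positivity)
      _ ≤ |C| * (Y : ℝ) ^ t :=
          mul_le_mul_of_nonneg_left (Real.rpow_le_rpow_of_exponent_le hY1 ht.le) (abs_nonneg C)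

end Pool.Agent.Results.MP_4467b5_nt.GoodApproximations
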