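import Mathlib
import Pool.Agent.Q30.DH.Cl

/-!
# The density hypothesis is equivalent to the same bound for the large values of zeta

The density hypothesis `N(σ, T) ≤ C T^(2(1-σ)+ε)` (uniformly for `1/2 ≤ σ ≤ 1`) is equivalent to

* the same bound for the large values: for all `ε, η > 0` the measure of the set of the `t ∈ [1, T]`
  with `|ζ(σ + it)| ≥ T^η` is at most `C T^(2(1-σ)+ε)`, uniformly for `1/2 ≤ σ ≤ 1`
  (the Lindelöf hypothesis says that for `T ≥ T₀(η)` this set is empty);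
* the same bound for the clusters of zeros: for all `ε, η > 0` the number of the integers `n ≤ T` for
  which the window `n < γ ≤ n + 1` contains at least `η log T` zeros `β + iγ` with `β ≥ σ` is at most
  `C T^(2(1-σ)+ε)`.

The same holds with any continuous nonincreasing exponent `A(σ) ≥ 2(1-σ)` in the place of
`2(1-σ)`: a zero density theorem with the exponent `A(σ)` is the same as a density theorem for the
large values with the exponent `A(σ)`.

Proof. Zeros outside of clusters satisfy the density hypothesis (the starting file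
`MP_4467b5_nt/IsolatedZeros`). A cluster gives by Jensen's formula a large value at one point, and
the mean value inequality of `log |ζ|` over a disc gives a set of large values of positive area, so
Fubini's theorem bounds the number of clusters by the measures on the lines. Conversely, near a
large value there is a cluster (`few_bd`: few zeros in a window imply that `ζ` is small there).
-/

set_option autoImplicit false

open MeasureTheory

namespace Pool.Agent.Results.MP_4467b5_nt.LargeValues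

/-- The number of the zeros `β + iγ` of `ζ` with `β ≥ σ` and `x < γ ≤ y`, counted with
multiplicity. (There are finitely many, see `finite`.) -/
noncomputable def N (σ x y : ℝ) : ℕ :=
  ∑ᶠ s ∈ {s : ℂ | riemannZeta s = 0 ∧ σ ≤ s.re ∧ x < s.im ∧ s.im ≤ y}, analyticOrderNatAt riemannZeta s

theorem finite (σ x y : ℝ) : {s : ℂ | riemannZeta s = 0 ∧ σ ≤ s.re ∧ x < s.im ∧ s.im ≤ y}.Finite :=
  Pool.Agent.Q30.DH.ZN_fin σ x y

/-- a zero density theorem with the exponent `A(σ)` -/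
def ZeroDensity (A : ℝ → ℝ) : Prop :=
  ∀ ε : ℝ, 0 < ε → ∃ C : ℝ, 0 < C ∧ ∃ T₀ : ℝ, ∀ T : ℝ, T₀ ≤ T → ∀ σ : ℝ, 1 / 2 ≤ σ → σ ≤ 1 →
    (N σ 0 T : ℝ) ≤ C * T ^ (A σ + ε)

/-- a density theorem with the exponent `A(σ)` for the large values of `ζ` on the lines `Re s = σ` -/
def LargeValues (A : ℝ → ℝ) : Prop :=
  ∀ ε : ℝ, 0 < ε → ∀ η : ℝ, 0 < η → ∃ C : ℝ, 0 < C ∧ ∃ T₀ : ℝ, ∀ T : ℝ, T₀ ≤ T →
    ∀ σ : ℝ, 1 / 2 ≤ σ → σ ≤ 1 →
      volume {t : ℝ | 1 ≤ t ∧ t ≤ T ∧ T ^ η ≤ ‖riemannZeta ((σ : ℂ) + (t : ℂ) * Complex.I)‖} ≤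
        ENNReal.ofReal (C * T ^ (A σ + ε))

/-- a density theorem with the exponent `A(σ)` for the clusters of zeros: few of the windows
`(n, n + 1]`, `0 ≤ n ≤ T`, contain at least `η log T` zeros right of `σ` -/
def Clusters (A : ℝ → ℝ) : Prop :=
  ∀ ε : ℝ, 0 < ε → ∀ η : ℝ, 0 < η → ∃ C : ℝ, 0 < C ∧ ∃ T₀ : ℝ, ∀ T : ℝ, T₀ ≤ T →
    ∀ σ : ℝ, 1 / 2 ≤ σ → σ ≤ 1 →
      ((Finset.range (⌊T⌋₊ + 1)).filter (fun n : ℕ => η * Real.log T ≤ N σ n (n + 1))).card ≤
        C * T ^ (A σ + ε)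

/-- the density hypothesis -/
def DensityHypothesis : Prop :=
  ∀ ε : ℝ, 0 < ε → ∃ C : ℝ, 0 < C ∧ ∃ T₀ : ℝ, ∀ T : ℝ, T₀ ≤ T → ∀ σ : ℝ, 1 / 2 ≤ σ → σ ≤ 1 →
    (N σ 0 T : ℝ) ≤ C * T ^ (2 * (1 - σ) + ε)

/-- **Theorem.** The density hypothesis, the density hypothesis for the large values and the density
hypothesis for the clusters are equivalent; and the same for all continuous nonincreasing exponents
`A(σ) ≥ 2(1-σ)`. -/
theorem result :
    (DensityHypothesis ↔ LargeValues fun σ => 2 * (1 - σ)) ∧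
    (DensityHypothesis ↔ Clusters fun σ => 2 * (1 - σ)) ∧
    ∀ A : ℝ → ℝ, ContinuousOn A (Set.Icc (1 / 2) 1) → AntitoneOn A (Set.Icc (1 / 2) 1) →
      (∀ σ : ℝ, 1 / 2 ≤ σ → σ ≤ 1 → 2 * (1 - σ) ≤ A σ) →
      (ZeroDensity A ↔ LargeValues A) ∧ (ZeroDensity A ↔ Clusters A) := by
  have h : ∀ A : ℝ → ℝ, ContinuousOn A (Set.Icc (1 / 2) 1) → AntitoneOn A (Set.Icc (1 / 2) 1) →
      (∀ σ : ℝ, 1 / 2 ≤ σ → σ ≤ 1 → 2 * (1 - σ) ≤ A σ) →
      (ZeroDensity A ↔ LargeValues A) ∧ (ZeroDensity A ↔ Clusters A) := by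
    intro A h1 h2 h3
    have ht := Pool.Agent.Q30.DH.tfae (A := A) ⟨h1, h2, h3⟩
    exact ⟨ht.out 0 2, ht.out 0 1⟩
  have h0 := h (fun σ => 2 * (1 - σ)) (by fun_prop) (fun a _ b _ hab => by
    simp only
    linarith) (fun _ _ _ => le_rfl)
  exact ⟨h0.1, h0.2, h⟩

end Pool.Agent.Results.MP_4467b5_nt.LargeValues
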