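import Pool.Agent.Q34.DN.Main

/-!
# The density hypothesis in all short intervals near the multiples of a sequence

`N σ x y` is the number of the zeros of zeta with real part at least `σ` and ordinate in `(x, y]`. For the interval
`(t, t + H]` the density hypothesis predicts `N σ t (t + H) ≤ H ^ (2(1-σ)) t ^ ε`. We call the integer `m` good if this
holds for ALL real `t ∈ [m, m + 1)`, ALL `1 ≤ H ≤ t ^ (2/3)` and ALL `1/2 ≤ σ ≤ 1`, together with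
`N σ t (t + H) ≤ H t ^ (-(4/3)(σ - 1/2)) m ^ ε` for all `t ^ (2/3) ≤ H ≤ t` and all these `σ`.
All but `C Y ^ (1 - ε/2)` of the integers `m ≤ Y` are good. For every sequence `v_n ≥ 1` of exponent of convergence at
most `τ` and `θ < 1`, for each `α > 0` outside a set of Hausdorff dimension at most `(1 - ε/2 + τ)/(1 - θ)`, for all
large `n` all integers `m` within `v_n ^ θ` of `α v_n` are good; if `τ = 0`, for almost every `α` the points `t = α v_n`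
have this property for every `ε`, for all large `n`.
-/

set_option autoImplicit false

open MeasureTheory

namespace Pool.Agent.Results.MP_4467b5_nt.ShortIntervalsNearSequences

/-- the number of the zeros `β + iγ` of zeta with `β ≥ σ` and `x < γ ≤ y`, counted with multiplicity -/
noncomputable def N (σ x y : ℝ) : ℕ :=
  ∑ᶠ s ∈ {s : ℂ | riemannZeta s = 0 ∧ σ ≤ s.re ∧ x < s.im ∧ s.im ≤ y}, analyticOrderNatAt riemannZeta s

/-- the sets of zeros that are counted are finite -/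
theorem finite {σ x y : ℝ} (hx : 0 ≤ x) :
    {s : ℂ | riemannZeta s = 0 ∧ σ ≤ s.re ∧ x < s.im ∧ s.im ≤ y}.Finite := Pool.Agent.Q34.DN.fin hx

/-- the density hypothesis, up to the factor `b`, in the intervals `(t, t + H]`, `1 ≤ H ≤ t ^ (2/3)`, for all `σ`, and
the density theorem of slope `4/3` in those with `t ^ (2/3) ≤ H ≤ t` -/
def DensityAt (b t : ℝ) : Prop := ∀ H σ : ℝ, 1 ≤ H → 1 / 2 ≤ σ → σ ≤ 1 →
  (H ≤ t ^ (2 / 3 : ℝ) → (N σ t (t + H) : ℝ) ≤ b * H ^ (2 * (1 - σ))) ∧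
  (t ^ (2 / 3 : ℝ) ≤ H → H ≤ t → (N σ t (t + H) : ℝ) ≤ b * (H * t ^ (-(4 / 3 * (σ - 1 / 2)))))

/-- the integer `m` is good -/
def Good (ε : ℝ) (m : ℕ) : Prop := ∀ t : ℝ, (m : ℝ) ≤ t → t < m + 1 → DensityAt ((m : ℝ) ^ ε) t

/-- the exponent of convergence of the sequence `v` is at most `τ` -/
def ExpLe (v : ℕ → ℝ) (τ : ℝ) : Prop := ∀ t : ℝ, τ < t → Summable (fun n : ℕ => (v n) ^ (-t))

lemma good_of {ε : ℝ} {m : ℕ} (h : Pool.Agent.Q34.DN.Good ε m) : Good ε m := by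
  intro t ht1 ht2 H σ hH hσ1 hσ2
  have hH0 : (0 : ℝ) < H := by linarith
  constructor
  · intro h1
    have hHt : H ≤ t := by
      rcases le_total t 1 with h2 | h2
      · -- `t ≤ 1` forces `H ≤ 1`
        have ht0 : 0 ≤ t := (Nat.cast_nonneg m).trans ht1
        have h3 : t ^ (2 / 3 : ℝ) ≤ 1 := Real.rpow_le_one ht0 h2 (by norm_num)
        have h4 : H = 1 := le_antisymm (h1.trans h3) hH
        by_contra hcon
        push Not at hcon
        have h5 : t ^ (2 / 3 : ℝ) < 1 := Real.rpow_lt_one ht0 (by linarith) (by norm_num)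
        linarith
      · refine h1.trans ?_
        calc t ^ (2 / 3 : ℝ) ≤ t ^ (1 : ℝ) := Real.rpow_le_rpow_of_exponent_le h2 (by norm_num)
          _ = t := Real.rpow_one t
    have ht1' : 1 ≤ t := hH.trans hHt
    refine (h t ht1 ht2 H hH hHt σ hσ1 hσ2).trans ?_
    apply mul_le_mul_of_nonneg_left _ (by positivity)
    have h2 : H ^ 2 ≤ t ^ (4 / 3 : ℝ) := by
      calc H ^ 2 ≤ (t ^ (2 / 3 : ℝ)) ^ 2 := pow_le_pow_left₀ hH0.le h1 2
        _ = t ^ (4 / 3 : ℝ) := by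
            rw [← Real.rpow_natCast, ← Real.rpow_mul (by linarith)]
            norm_num
    rw [min_eq_left h2, ← Real.rpow_natCast, ← Real.rpow_mul hH0.le]
    conv_lhs => rw [← Real.rpow_one H, ← Real.rpow_mul hH0.le, ← Real.rpow_add hH0]
    apply le_of_eq
    congr 1
    push_cast
    ring
  · intro h1 hHt
    have ht1' : 1 ≤ t := hH.trans hHt
    refine (h t ht1 ht2 H hH hHt σ hσ1 hσ2).trans ?_
    apply mul_le_mul_of_nonneg_left _ (by positivity)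
    have h2 : t ^ (4 / 3 : ℝ) ≤ H ^ 2 := by
      calc t ^ (4 / 3 : ℝ) = (t ^ (2 / 3 : ℝ)) ^ 2 := by
            rw [← Real.rpow_natCast, ← Real.rpow_mul (by linarith)]
            norm_num
        _ ≤ H ^ 2 := pow_le_pow_left₀ (by positivity) h1 2
    rw [min_eq_right h2, ← Real.rpow_mul (by linarith)]
    apply le_of_eq
    congr 2
    ring

lemma vol_zero_of_dimH_lt {E : Set ℝ} (h : dimH E < 1) : volume E = 0 := by
  have h1 : Measure.hausdorffMeasure ((1 : NNReal) : ℝ) E = 0 := hausdorffMeasure_of_dimH_lt (by exact_mod_cast h)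
  rw [NNReal.coe_one, hausdorffMeasure_real] at h1
  exact h1

open Classical in
/-- **The density hypothesis in all short intervals near the multiples of a sequence.** -/
theorem result :
    (∀ ε : ℝ, 0 < ε → ε ≤ 1 →
      -- few bad integers
      (∃ C : ℝ, ∀ Y : ℕ, (((Finset.Ioc 0 Y).filter (fun m : ℕ => ¬ Good ε m)).card : ℝ) ≤
        C * (Y : ℝ) ^ (1 - ε / 2)) ∧
      -- windows around the members of `α v`
      ∀ (v : ℕ → ℝ) (τ θ : ℝ), (∀ n, 1 ≤ v n) → 0 ≤ τ → ExpLe v τ → θ < 1 →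
      ∃ E : Set ℝ, dimH E ≤ ENNReal.ofReal ((1 - ε / 2 + τ) / (1 - θ)) ∧ ∀ α : ℝ, 0 < α → α ∉ E →
        ∃ n₀ : ℕ, ∀ n : ℕ, n₀ ≤ n → ∀ m : ℕ, |(m : ℝ) - α * v n| ≤ (v n) ^ θ → Good ε m) ∧
    -- almost every `α`
    (∀ v : ℕ → ℝ, (∀ n, 1 ≤ v n) → ExpLe v 0 → ∀ᵐ α : ℝ, 0 < α → ∀ ε : ℝ, 0 < ε →
      ∃ n₀ : ℕ, ∀ n : ℕ, n₀ ≤ n → DensityAt ((α * v n) ^ ε) (α * v n)) ∧
    -- the integers `⌊α n ^ κ⌋`
    (∀ κ : ℝ, 1 < κ → ∃ E : Set ℝ, dimH E < 1 ∧ ∀ α : ℝ, 0 < α → α ∉ E → ∀ ε : ℚ, 0 < ε → ε ≤ 1 →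
      ∃ δ : ℝ, 0 < δ ∧ δ < 1 ∧ ∃ N₀ : ℕ, ∀ M : ℕ, N₀ ≤ M →
        (((Finset.Icc 1 M).filter (fun n : ℕ => ¬ Good ε ⌊α * (n : ℝ) ^ κ⌋₊)).card : ℝ) ≤ (M : ℝ) ^ (1 - δ)) ∧
    -- exponents of convergence
    (∀ κ : ℝ, 0 < κ → ExpLe (fun n : ℕ => ((n : ℝ) + 1) ^ κ) (1 / κ)) ∧
    (∀ b : ℝ, 1 < b → ExpLe (fun n : ℕ => b ^ n) 0) := by
  refine ⟨fun ε hε hε1 => ⟨?_, fun v τ θ hv hτ hE hθ => ?_⟩, fun v hv hE => ?_, fun κ hκ => ?_,
    fun κ hκ => Pool.Agent.Y854.GM.expLe_pow κ hκ, fun b hb => Pool.Agent.Y854.GM.expLe_geom b hb⟩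
  · obtain ⟨C, hC⟩ := Pool.Agent.Q34.DN.count hε hε1
    refine ⟨C, fun Y => le_trans (Nat.cast_le.2 (Finset.card_le_card fun m hm => ?_)) (hC Y)⟩
    rw [Finset.mem_filter] at hm ⊢
    exact ⟨hm.1, fun hg => hm.2 (good_of hg)⟩
  · obtain ⟨E, hEd, hE2⟩ := Pool.Agent.Q34.DN.windows hε hε1 v τ θ hv hτ hE hθ
    refine ⟨E, hEd, fun α hα hαE => ?_⟩
    obtain ⟨n₀, hn⟩ := hE2 α hα hαE
    exact ⟨n₀, fun n hn1 m hm => good_of (hn n hn1 m hm)⟩
  · have h1 : ∀ k : ℕ, ∃ E : Set ℝ, volume E = 0 ∧ ∀ α : ℝ, 0 < α → α ∉ E →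
        ∃ n₀ : ℕ, ∀ n : ℕ, n₀ ≤ n → ∀ m : ℕ, |(m : ℝ) - α * v n| ≤ (v n) ^ (0 : ℝ) → Good (1 / ((k : ℝ) + 1)) m := by
      intro k
      have hk : (0 : ℝ) < 1 / ((k : ℝ) + 1) := by positivity
      have hk1 : 1 / ((k : ℝ) + 1) ≤ 1 := by
        rw [div_le_one (by positivity)]
        have : (0 : ℝ) ≤ k := Nat.cast_nonneg k
        linarith
      obtain ⟨E, hEd, hE2⟩ := Pool.Agent.Q34.DN.windows hk hk1 v 0 0 hv le_rfl hE one_pos
      refine ⟨E, vol_zero_of_dimH_lt (lt_of_le_of_lt hEd ?_), fun α hα hαE => ?_⟩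
      · rw [← ENNReal.ofReal_one, ENNReal.ofReal_lt_ofReal_iff one_pos]
        simp only [sub_zero, div_one, add_zero]
        linarith
      · obtain ⟨n₀, hn⟩ := hE2 α hα hαE
        exact ⟨n₀, fun n hn1 m hm => good_of (hn n hn1 m hm)⟩
    choose E hE0 hE1 using h1
    have h2 : volume (⋃ k, E k) = 0 := measure_iUnion_null hE0
    have h3 : ∀ᵐ α : ℝ, α ∉ ⋃ k, E k := measure_eq_zero_iff_ae_notMem.1 h2
    filter_upwards [h3] with α hα hα0 ε hε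
    obtain ⟨k, hk⟩ := exists_nat_one_div_lt hε
    have hαk : α ∉ E k := fun h => hα (Set.mem_iUnion.2 ⟨k, h⟩)
    obtain ⟨n₀, hn⟩ := hE1 k α hα0 hαk
    refine ⟨n₀, fun n hn1 => ?_⟩
    have hv0 : 0 < α * v n := mul_pos hα0 (by linarith [hv n])
    have h4 : |((⌊α * v n⌋₊ : ℕ) : ℝ) - α * v n| ≤ (v n) ^ (0 : ℝ) := by
      rw [Real.rpow_zero, abs_le]
      constructor <;> linarith [Nat.floor_le hv0.le, Nat.lt_floor_add_one (α * v n)]
    have h5 := hn n hn1 _ h4 (α * v n) (Nat.floor_le hv0.le) (Nat.lt_floor_add_one _)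
    have h6 : ((⌊α * v n⌋₊ : ℕ) : ℝ) ^ (1 / ((k : ℝ) + 1)) ≤ (α * v n) ^ (1 / ((k : ℝ) + 1)) :=
      Real.rpow_le_rpow (Nat.cast_nonneg _) (Nat.floor_le hv0.le) (by positivity)
    intro H σ hH hσ1 hσ2
    obtain ⟨a1, a2⟩ := h5 H σ hH hσ1 hσ2
    have hbig : 1 ≤ α * v n → (α * v n) ^ (1 / ((k : ℝ) + 1)) ≤ (α * v n) ^ ε := fun h =>
      Real.rpow_le_rpow_of_exponent_le h hk.le
    constructor
    · intro h7
      have h8 : 1 ≤ α * v n := by
        by_contra hcon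
        push Not at hcon
        have := Real.rpow_lt_one hv0.le hcon (show (0 : ℝ) < 2 / 3 by norm_num)
        linarith
      refine (a1 h7).trans ?_
      exact mul_le_mul_of_nonneg_right (h6.trans (hbig h8)) (by positivity)
    · intro h7 h8
      refine (a2 h7 h8).trans ?_
      exact mul_le_mul_of_nonneg_right (h6.trans (hbig (hH.trans h8))) (by positivity)
  · obtain ⟨E, hE, h⟩ := Pool.Agent.Q34.DN.pow hκ
    refine ⟨E, hE, fun α hα hαE ε h0 h1 => ?_⟩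
    obtain ⟨δ, hδ, hδ1, N₀, hN⟩ := h α hα hαE ε h0 h1
    refine ⟨δ, hδ, hδ1, N₀, fun N hNN => le_trans ?_ (hN N hNN)⟩
    refine Nat.cast_le.2 (Finset.card_le_card fun n hn => ?_)
    rw [Finset.mem_filter] at hn ⊢
    exact ⟨hn.1, fun hg => hn.2 (good_of hg)⟩

end Pool.Agent.Results.MP_4467b5_nt.ShortIntervalsNearSequences
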